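import Pool.Agent.W326.DU.Stm

/-!
# Project DU, part DD : square zero
-/

set_option autoImplicit false
open Finset

namespace Pool.Agent.W880.DU

open Pool.Agent.W326.DU

theorem adj_symm : ∀ a b : Fin 10, adj a b → adj b a := by
  rintro a b ⟨i, h | h⟩
  · exact ⟨i, Or.inr h⟩
  · exact ⟨i, Or.inl h⟩

theorem adj_eL : ∀ i, adj (eL i).1 (eL i).2 := fun i => ⟨i, Or.inl rfl⟩

theorem adj_tL : ∀ j, adj (tL j).1 (tL j).2.1 ∧ adj (tL j).1 (tL j).2.2 ∧
    adj (tL j).2.1 (tL j).2.2 := by decide +kernel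

theorem adj_pp : ∀ k : Fin 4, adj (pp k) (pp (k + 1)) := by decide +kernel

/-- the three cases for a pair -/
theorem pair_cases : ∀ a b : Fin 10,
    (∃ i, eL i = (a, b) ∧ ∀ i', sg2 i' a b = if i' = i then 1 else 0) ∨
    (∃ i, eL i = (b, a) ∧ ∀ i', sg2 i' a b = if i' = i then -1 else 0) ∨
    (¬ adj a b ∧ ∀ i', sg2 i' a b = 0) := by decide +kernel

theorem sg2_mm : ∀ (a b : Fin 10) (k : Fin 4), ∑ i, sg2 i a b * sg2 i (mm k) (mm (k + 1)) =
    (if mm k = a ∧ mm (k + 1) = b then 1 else 0) - (if mm k = b ∧ mm (k + 1) = a then 1 else 0) := by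
  decide +kernel

theorem sg2_pp : ∀ (a b : Fin 10) (k : Fin 4), ∑ i, sg2 i a b * sg2 i (pp k) (pp (k + 1)) =
    (if pp k = a ∧ pp (k + 1) = b then 1 else 0) - (if pp k = b ∧ pp (k + 1) = a then 1 else 0) := by
  decide +kernel

theorem sg3_swap (j : Fin 16) (a b c : Fin 10) : sg3 j a c b = - sg3 j a b c := by
  unfold sg3
  ring

theorem sg3_nonadj (j : Fin 16) (c a b : Fin 10) (h : ¬ adj a b) : sg3 j c a b = 0 := by
  obtain ⟨h1, h2, h3⟩ := adj_tL j
  have h' : ¬ adj b a := fun h4 => h (adj_symm _ _ h4)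
  unfold sg3
  rw [if_neg, if_neg, if_neg, if_neg, if_neg, if_neg]
  · norm_num
  all_goals
    intro h4
    rw [h4] at h1 h2 h3
    first | exact h h1 | exact h h2 | exact h h3 | exact h' h1 | exact h' h2 | exact h' h3

section A

variable {M : Type} [AddCommGroup M]

theorem alt3_swap (z : Fin 16 → M) (a b c : Fin 10) : alt3 z a c b = - alt3 z a b c := by
  unfold alt3
  rw [← sum_neg_distrib]
  refine sum_congr rfl fun j _ => ?_
  rw [sg3_swap, neg_smul]

theorem alt3_nonadj (z : Fin 16 → M) (c a b : Fin 10) (h : ¬ adj a b) : alt3 z c a b = 0 := by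
  unfold alt3
  refine sum_eq_zero fun j _ => ?_
  rw [sg3_nonadj j c a b h, zero_smul]

/-- the alternating extension of the edge function attached to an alternating function -/
theorem alt2_c3 (R : Fin 10 → M →+ M) (z : Fin 16 → M) (a b : Fin 10) :
    alt2 (c3 R z) a b = ∑ c, R c (alt3 z c a b) := by
  rcases pair_cases a b with ⟨i, hi, h⟩ | ⟨i, hi, h⟩ | ⟨hn, h⟩
  · unfold alt2
    have h1 : ∀ i' ∈ (univ : Finset (Fin 26)), sg2 i' a b • c3 R z i' =
        if i' = i then c3 R z i' else 0 := by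
      intro i' _
      rw [h]
      split_ifs
      · rw [one_smul]
      · rw [zero_smul]
    rw [sum_congr rfl h1, sum_ite_eq' univ i, if_pos (mem_univ i)]
    unfold c3
    rw [hi]
  · unfold alt2
    have h1 : ∀ i' ∈ (univ : Finset (Fin 26)), sg2 i' a b • c3 R z i' =
        if i' = i then - c3 R z i' else 0 := by
      intro i' _
      rw [h]
      split_ifs
      · rw [neg_smul, one_smul]
      · rw [zero_smul]
    rw [sum_congr rfl h1, sum_ite_eq' univ i, if_pos (mem_univ i)]
    unfold c3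
    rw [hi, ← sum_neg_distrib]
    refine sum_congr rfl fun c _ => ?_
    rw [alt3_swap, map_neg]
    simp only [neg_neg]
  · unfold alt2
    have h1 : ∀ i' ∈ (univ : Finset (Fin 26)), sg2 i' a b • c3 R z i' = 0 := by
      intro i' _
      rw [h, zero_smul]
    rw [sum_eq_zero h1]
    symm
    refine sum_eq_zero fun c _ => ?_
    rw [alt3_nonadj z c a b hn, map_zero]

theorem ind2 (p q : Fin 10) (F : Fin 10 → Fin 10 → M) :
    ∑ a, ∑ b, (if (p, q) = (a, b) then F a b else 0) = F p q := by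
  rw [sum_eq_single p, sum_eq_single q]
  · rw [if_pos rfl]
  · intro b _ hb
    rw [if_neg]
    intro h
    exact hb (Prod.mk.inj h).2.symm
  · intro h
    exact absurd (mem_univ _) h
  · intro a _ ha
    refine sum_eq_zero fun b _ => ?_
    rw [if_neg]
    intro h
    exact ha (Prod.mk.inj h).1.symm
  · intro h
    exact absurd (mem_univ _) h

theorem ind2' (p q : Fin 10) (F : Fin 10 → Fin 10 → M) :
    ∑ a, ∑ b, (if (p, q) = (b, a) then F a b else 0) = F q p := by
  rw [sum_comm]
  exact ind2 p q fun b a => F a b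

theorem sum_sg2 (i : Fin 26) (F : Fin 10 → Fin 10 → M) :
    ∑ a, ∑ b, sg2 i a b • F a b = F (eL i).1 (eL i).2 - F (eL i).2 (eL i).1 := by
  unfold sg2
  simp only [sub_smul, ite_smul, one_smul, zero_smul, sum_sub_distrib]
  rw [← ind2 (eL i).1 (eL i).2 F, ← ind2' (eL i).1 (eL i).2 F]

theorem ind3a (p q r b : Fin 10) (F : Fin 10 → Fin 10 → M) :
    ∑ a, ∑ c, (if (p, q, r) = (c, a, b) then F a c else 0) = if r = b then F q p else 0 := by
  by_cases h : r = b
  · subst h
    rw [if_pos rfl, ← ind2' p q F]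
    refine sum_congr rfl fun a _ => sum_congr rfl fun c _ => ?_
    simp only [Prod.mk.injEq, and_true]
  · rw [if_neg h]
    refine sum_eq_zero fun a _ => sum_eq_zero fun c _ => ?_
    rw [if_neg]
    intro h2
    simp only [Prod.mk.injEq] at h2
    exact h h2.2.2

theorem ind3b (p q r b : Fin 10) (F : Fin 10 → Fin 10 → M) :
    ∑ a, ∑ c, (if (p, q, r) = (c, b, a) then F a c else 0) = if q = b then F r p else 0 := by
  by_cases h : q = b
  · subst h
    rw [if_pos rfl, ← ind2' p r F]
    refine sum_congr rfl fun a _ => sum_congr rfl fun c _ => ?_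
    simp only [Prod.mk.injEq, true_and]
  · rw [if_neg h]
    refine sum_eq_zero fun a _ => sum_eq_zero fun c _ => ?_
    rw [if_neg]
    intro h2
    simp only [Prod.mk.injEq] at h2
    exact h h2.2.1

theorem ind3c (p q r b : Fin 10) (F : Fin 10 → Fin 10 → M) :
    ∑ a, ∑ c, (if (p, q, r) = (b, c, a) then F a c else 0) = if p = b then F r q else 0 := by
  by_cases h : p = b
  · subst h
    rw [if_pos rfl, ← ind2' q r F]
    refine sum_congr rfl fun a _ => sum_congr rfl fun c _ => ?_
    simp only [Prod.mk.injEq, true_and]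
  · rw [if_neg h]
    refine sum_eq_zero fun a _ => sum_eq_zero fun c _ => ?_
    rw [if_neg]
    intro h2
    simp only [Prod.mk.injEq] at h2
    exact h h2.1

theorem sum_sg3 (j : Fin 16) (b : Fin 10) (F : Fin 10 → Fin 10 → M)
    (hF : ∀ p q, adj p q → F p q = F q p) :
    ∑ a, ∑ c, sg3 j c a b • F a c = 0 := by
  obtain ⟨h1, h2, h3⟩ := adj_tL j
  have e1 := ind3a (tL j).1 (tL j).2.1 (tL j).2.2 b F
  have e2 := ind3b (tL j).1 (tL j).2.1 (tL j).2.2 b F
  have e3 := ind3c (tL j).1 (tL j).2.1 (tL j).2.2 b F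
  have e1' := ind3a (tL j).1 (tL j).2.1 (tL j).2.2 b fun a c => F c a
  have e2' := ind3b (tL j).1 (tL j).2.1 (tL j).2.2 b fun a c => F c a
  have e3' := ind3c (tL j).1 (tL j).2.1 (tL j).2.2 b fun a c => F c a
  rw [sum_comm] at e1' e2' e3'
  have ht : tL j = ((tL j).1, (tL j).2.1, (tL j).2.2) := rfl
  rw [← ht] at e1 e2 e3 e1' e2' e3'
  unfold sg3
  simp only [sub_smul, add_smul, ite_smul, one_smul, zero_smul, sum_sub_distrib, sum_add_distrib]
  rw [e1, e2, e3, e1', e2', e3', hF _ _ h1, hF _ _ h2, hF _ _ h3]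
  abel

end A

theorem c1_c2 {M : Type} [AddCommGroup M] (R : Fin 10 → M →+ M)
    (hR : ∀ a b, adj a b → ∀ x, R a (R b x) = R b (R a x)) (y : Fin 26 → M) :
    c1 R (c2 R y) = 0 := by
  have h1 : c1 R (c2 R y) = ∑ i, ∑ b, ∑ a, sg2 i a b • R b (R a (y i)) := by
    unfold c1 c2 alt2
    have h2 : ∀ b ∈ (univ : Finset (Fin 10)), R b (∑ a, R a (∑ i, sg2 i a b • y i)) =
        ∑ i, ∑ a, sg2 i a b • R b (R a (y i)) := by
      intro b _
      rw [map_sum, sum_comm]
      refine sum_congr rfl fun a _ => ?_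
      rw [map_sum, map_sum]
      refine sum_congr rfl fun i _ => ?_
      rw [map_zsmul, map_zsmul]
    rw [sum_congr rfl h2, sum_comm]
  rw [h1]
  refine sum_eq_zero fun i _ => ?_
  rw [sum_comm, sum_sg2 i fun a b => R b (R a (y i)), hR _ _ (adj_eL i), sub_self]

theorem c2_c3 {M : Type} [AddCommGroup M] (R : Fin 10 → M →+ M)
    (hR : ∀ a b, adj a b → ∀ x, R a (R b x) = R b (R a x)) (z : Fin 16 → M) (b : Fin 10) :
    c2 R (c3 R z) b = 0 := by
  unfold c2
  simp only [alt2_c3]
  have h1 : ∑ a, R a (∑ c, R c (alt3 z c a b)) =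
      ∑ j, ∑ a, ∑ c, sg3 j c a b • R a (R c (z j)) := by
    rw [sum_comm]
    refine sum_congr rfl fun a _ => ?_
    rw [map_sum, sum_comm]
    refine sum_congr rfl fun c _ => ?_
    unfold alt3
    rw [map_sum, map_sum]
    refine sum_congr rfl fun j _ => ?_
    rw [map_zsmul, map_zsmul]
  rw [h1]
  refine sum_eq_zero fun j _ => ?_
  exact sum_sg3 j b (fun a c => R a (R c (z j))) fun p q hpq => hR p q hpq _

theorem shift4 {M : Type} [AddCommGroup M] (G : Fin 4 → M) : ∑ k, G (k + 1) = ∑ k, G k :=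
  Equiv.sum_comp (Equiv.addRight (1 : Fin 4)) G

theorem c1_f1 {M : Type} [AddCommGroup M] (R : Fin 10 → M →+ M) (T : M →+ M)
    (hT : ∀ k x, R (mm k) (T x) = T (R (pp k) x)) (w : Fin 4 → M) :
    c1 R (f1 T w) = T (k1 R w) - k1 R w := by
  unfold c1 f1 k1
  have h1 : ∀ v ∈ (univ : Finset (Fin 10)),
      R v (∑ k, ((if mm k = v then T (w k) else 0) - (if pp k = v then w k else 0))) =
      ∑ k, ((if mm k = v then R v (T (w k)) else 0) - (if pp k = v then R v (w k) else 0)) := by
    intro v _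
    rw [map_sum]
    refine sum_congr rfl fun k _ => ?_
    rw [map_sub]
    congr 1
    · split_ifs
      · rfl
      · rw [map_zero]
    · split_ifs
      · rfl
      · rw [map_zero]
  rw [sum_congr rfl h1, sum_comm, map_sum, ← sum_sub_distrib]
  refine sum_congr rfl fun k _ => ?_
  rw [sum_sub_distrib, sum_ite_eq, sum_ite_eq, if_pos (mem_univ _), if_pos (mem_univ _), hT]

theorem alt2_f2 {M : Type} [AddCommGroup M] (T : M →+ M) (u : Fin 4 → M) (a b : Fin 10) :
    alt2 (f2 T u) a b = ∑ k, ((((if mm k = a ∧ mm (k + 1) = b then T (u k) else 0) -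
      (if mm k = b ∧ mm (k + 1) = a then T (u k) else 0)) -
      ((if pp k = a ∧ pp (k + 1) = b then u k else 0) -
      (if pp k = b ∧ pp (k + 1) = a then u k else 0)))) := by
  unfold alt2 f2
  have h1 : ∀ i ∈ (univ : Finset (Fin 26)), sg2 i a b •
      ∑ k, (sg2 i (mm k) (mm (k + 1)) • T (u k) - sg2 i (pp k) (pp (k + 1)) • u k) =
      ∑ k, ((sg2 i a b * sg2 i (mm k) (mm (k + 1))) • T (u k) -
        (sg2 i a b * sg2 i (pp k) (pp (k + 1))) • u k) := by
    intro i _
    rw [smul_sum]
    refine sum_congr rfl fun k _ => ?_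
    rw [smul_sub, smul_smul, smul_smul]
  rw [sum_congr rfl h1, sum_comm]
  refine sum_congr rfl fun k _ => ?_
  rw [sum_sub_distrib, ← sum_smul, ← sum_smul, sg2_mm, sg2_pp, sub_smul, sub_smul]
  simp only [ite_smul, one_smul, zero_smul]

theorem sum_pair {M : Type} [AddCommGroup M] (R : Fin 10 → M →+ M) (p q b : Fin 10) (x : M) :
    ∑ a, R a ((if p = a ∧ q = b then x else 0) - (if p = b ∧ q = a then x else 0)) =
      (if q = b then R p x else 0) - (if p = b then R q x else 0) := by
  have h1 : ∀ a ∈ (univ : Finset (Fin 10)),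
      R a ((if p = a ∧ q = b then x else 0) - (if p = b ∧ q = a then x else 0)) =
      (if p = a then (if q = b then R a x else 0) else 0) -
      (if q = a then (if p = b then R a x else 0) else 0) := by
    intro a _
    have e1 : R a (if p = a ∧ q = b then x else 0) =
        if p = a then (if q = b then R a x else 0) else 0 := by
      by_cases h1 : p = a
      · by_cases h2 : q = b
        · rw [if_pos ⟨h1, h2⟩, if_pos h1, if_pos h2]
        · rw [if_neg (fun h => h2 h.2), if_pos h1, if_neg h2, map_zero]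
      · rw [if_neg (fun h => h1 h.1), if_neg h1, map_zero]
    have e2 : R a (if p = b ∧ q = a then x else 0) =
        if q = a then (if p = b then R a x else 0) else 0 := by
      by_cases h1 : q = a
      · by_cases h2 : p = b
        · rw [if_pos ⟨h2, h1⟩, if_pos h1, if_pos h2]
        · rw [if_neg (fun h => h2 h.1), if_pos h1, if_neg h2, map_zero]
      · rw [if_neg (fun h => h1 h.2), if_neg h1, map_zero]
    rw [map_sub, e1, e2]
  rw [sum_congr rfl h1, sum_sub_distrib, sum_ite_eq, sum_ite_eq, if_pos (mem_univ _),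
    if_pos (mem_univ _)]

theorem c2_f2 {M : Type} [AddCommGroup M] (R : Fin 10 → M →+ M) (T : M →+ M)
    (hT : ∀ k x, R (mm k) (T x) = T (R (pp k) x)) (u : Fin 4 → M) (b : Fin 10) :
    c2 R (f2 T u) b + f1 T (fun k => - k2 R u k) b = 0 := by
  have h1 : c2 R (f2 T u) b = ∑ k, (((if mm (k + 1) = b then R (mm k) (T (u k)) else 0) -
      (if mm k = b then R (mm (k + 1)) (T (u k)) else 0)) -
      ((if pp (k + 1) = b then R (pp k) (u k) else 0) -
      (if pp k = b then R (pp (k + 1)) (u k) else 0))) := by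
    unfold c2
    simp only [alt2_f2, map_sum]
    rw [sum_comm]
    refine sum_congr rfl fun k _ => ?_
    simp only [map_sub (R _) (_ - _) (_ - _)]
    rw [sum_sub_distrib, sum_pair, sum_pair]
  have h2 : f1 T (fun k => - k2 R u k) b = ∑ k, (((if mm k = b then
      R (mm (k + 1)) (T (u k)) else 0) - (if mm k = b then
      R (mm (k - 1)) (T (u (k - 1))) else 0)) - ((if pp k = b then
      R (pp (k + 1)) (u k) else 0) - (if pp k = b then R (pp (k - 1)) (u (k - 1)) else 0))) := by
    unfold f1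
    refine sum_congr rfl fun k _ => ?_
    unfold k2
    rw [map_neg, map_sub, ← hT, ← hT]
    congr 1
    · split_ifs
      · abel
      · abel
    · split_ifs
      · abel_nf
      · abel
  have h3 := shift4 fun k => if mm k = b then R (mm (k - 1)) (T (u (k - 1))) else 0
  have h4 := shift4 fun k => if pp k = b then R (pp (k - 1)) (u (k - 1)) else 0
  simp only [add_sub_cancel_right] at h3 h4
  rw [h1, h2]
  simp only [sum_sub_distrib]
  rw [h3, h4]
  abel

theorem k1_k2 {M : Type} [AddCommGroup M] (R : Fin 10 → M →+ M)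
    (hR : ∀ a b, adj a b → ∀ x, R a (R b x) = R b (R a x)) (u : Fin 4 → M) :
    k1 R (fun k => - k2 R u k) = 0 := by
  unfold k1 k2
  have h3 := shift4 fun k => R (pp k) (R (pp (k - 1)) (u (k - 1)))
  simp only [add_sub_cancel_right] at h3
  have h1 : ∀ k ∈ (univ : Finset (Fin 4)),
      R (pp k) (-(R (pp (k - 1)) (u (k - 1)) - R (pp (k + 1)) (u k))) =
      R (pp (k + 1)) (R (pp k) (u k)) - R (pp k) (R (pp (k - 1)) (u (k - 1))) := by
    intro k _
    rw [map_neg, map_sub, hR _ _ (adj_pp k)]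
    abel
  rw [sum_congr rfl h1, sum_sub_distrib, h3, sub_self]

theorem alt2_add' {M : Type} [AddCommGroup M] (x y : Fin 26 → M) (a b : Fin 10) :
    alt2 (fun i => x i + y i) a b = alt2 x a b + alt2 y a b := by
  unfold alt2
  simp only [smul_add, sum_add_distrib]

theorem DD.th : PropDD := by
  intro M _ R T hR hT
  refine ⟨fun y w => ?_, fun z u => ⟨fun b => ?_, k1_k2 R hR u⟩⟩
  · have h1 : c1 R (fun b => c2 R y b + f1 T w b) = c1 R (c2 R y) + c1 R (f1 T w) := by
      unfold c1
      simp only [map_add, sum_add_distrib]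
    rw [h1, c1_c2 R hR, c1_f1 R T hT, map_neg]
    abel
  · have h1 : c2 R (fun i => c3 R z i + f2 T u i) b = c2 R (c3 R z) b + c2 R (f2 T u) b := by
      unfold c2
      simp only [alt2_add', map_add, sum_add_distrib]
    rw [h1, c2_c3 R hR, zero_add]
    exact c2_f2 R T hT u b

end Pool.Agent.W880.DU
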