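import Pool.Agent.W326.DU.Stm

/-!
# Project DU, parts AUG and SUB
-/

set_option autoImplicit false

namespace Pool.Agent.W880.DU

open Pool.Agent.W326.DU

theorem augm_of (G : Type) [Group G] (g : G) : augm G (MonoidAlgebra.of ℤ G g) = 1 := by
  change (MonoidAlgebra.lift ℤ ℤ G (1 : G →* ℤ)) (MonoidAlgebra.of ℤ G g) = 1
  rw [MonoidAlgebra.lift_of]
  rfl

theorem Aug.th : PropAUG := by
  intro G _ X hX x hx
  have h1 : ∀ g : G, MonoidAlgebra.of ℤ G g - 1 ∈ IL ℤ X := by
    intro g
    have hg : g ∈ Subgroup.closure X := by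
      rw [hX]
      trivial
    induction hg using Subgroup.closure_induction with
    | mem g hg => exact Submodule.subset_span ⟨g, hg, rfl⟩
    | one =>
      rw [map_one, sub_self]
      exact Submodule.zero_mem _
    | mul g h _ _ hg hh =>
      have h2 : MonoidAlgebra.of ℤ G (g * h) - 1 =
          MonoidAlgebra.of ℤ G g • (MonoidAlgebra.of ℤ G h - 1) +
            (MonoidAlgebra.of ℤ G g - 1) := by
        rw [map_mul, smul_eq_mul, mul_sub, mul_one]
        abel
      rw [h2]
      exact Submodule.add_mem _ (Submodule.smul_mem _ _ hh) hg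
    | inv g _ hg =>
      have h2 : MonoidAlgebra.of ℤ G g⁻¹ - 1 =
          -(MonoidAlgebra.of ℤ G g⁻¹ • (MonoidAlgebra.of ℤ G g - 1)) := by
        rw [smul_eq_mul, mul_sub, mul_one, ← map_mul, inv_mul_cancel, map_one]
        abel
      rw [h2]
      exact Submodule.neg_mem _ (Submodule.smul_mem _ _ hg)
  have h2 : x - augm G x • (1 : ZG G) ∈ IL ℤ X := by
    clear hx
    induction x using MonoidAlgebra.induction_on with
    | of g =>
      rw [augm_of, one_smul]
      exact h1 g
    | add f g hf hg =>
      have h3 : f + g - augm G (f + g) • (1 : ZG G) =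
          (f - augm G f • (1 : ZG G)) + (g - augm G g • (1 : ZG G)) := by
        rw [map_add, add_smul]
        abel
      rw [h3]
      exact Submodule.add_mem _ hf hg
    | smul r f hf =>
      have h3 : r • f - augm G (r • f) • (1 : ZG G) = r • (f - augm G f • (1 : ZG G)) := by
        rw [map_zsmul, smul_sub, smul_smul]
        rfl
      rw [h3]
      exact zsmul_mem hf r
  rw [hx, zero_smul, sub_zero] at h2
  exact h2

theorem Sub.th : PropSUB := by
  classical
  intro W W' ad ad' f hf had
  have hF : ∀ r ∈ rels ad', FreeGroup.lift (fun w => gen ad (f w)) r = 1 := by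
    rintro r ⟨a, b, hab, rfl⟩
    simp only [map_mul, map_inv, FreeGroup.lift_apply_of]
    have h1 : gen ad (f a) * gen ad (f b) * (gen ad (f a))⁻¹ * (gen ad (f b))⁻¹ = 1 :=
      PresentedGroup.one_of_mem (rels := rels ad) ⟨f a, f b, (had a b).1 hab, rfl⟩
    exact h1
  let F : RAAG ad' →* RAAG ad := PresentedGroup.toGroup hF
  have hFg : ∀ w, F (gen ad' w) = gen ad (f w) := fun w => PresentedGroup.toGroup.of hF
  let rf : W → RAAG ad' := fun w => if h : ∃ w', f w' = w then gen ad' h.choose else 1
  have hrf : ∀ w', rf (f w') = gen ad' w' := by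
    intro w'
    have h : ∃ w'', f w'' = f w' := ⟨w', rfl⟩
    change (if h : ∃ w'', f w'' = f w' then gen ad' h.choose else 1) = _
    rw [dif_pos h, hf h.choose_spec]
  have hrf2 : ∀ w, (¬ ∃ w', f w' = w) → rf w = 1 := fun w h => dif_neg h
  have hR : ∀ r ∈ rels ad, FreeGroup.lift rf r = 1 := by
    rintro r ⟨a, b, hab, rfl⟩
    simp only [map_mul, map_inv, FreeGroup.lift_apply_of]
    by_cases ha : ∃ a', f a' = a
    · by_cases hb : ∃ b', f b' = b
      · obtain ⟨a', rfl⟩ := ha
        obtain ⟨b', rfl⟩ := hb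
        rw [hrf, hrf]
        exact PresentedGroup.one_of_mem (rels := rels ad') ⟨a', b', (had a' b').2 hab, rfl⟩
      · rw [hrf2 b hb]
        group
    · rw [hrf2 a ha]
      group
  let r : RAAG ad →* RAAG ad' := PresentedGroup.toGroup hR
  refine ⟨F, hFg, ?_⟩
  have h1 : r.comp F = MonoidHom.id _ := by
    apply PresentedGroup.ext
    intro w
    change r (F (gen ad' w)) = gen ad' w
    rw [hFg]
    have h2 : r (gen ad (f w)) = rf (f w) := PresentedGroup.toGroup.of hR
    rw [h2, hrf]
  intro x y hxy
  have h2 : r (F x) = r (F y) := by rw [hxy]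
  have h3 : ∀ z, r (F z) = z := fun z => DFunLike.congr_fun h1 z
  rwa [h3, h3] at h2

end Pool.Agent.W880.DU
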